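import Pool.Agent.Helper23.MV.StH
import Pool.Agent.Helper48.BK.StW

/-! # Project MV, module SGZ: Siegel's bound for exceptional zeros -/

set_option autoImplicit false

namespace Pool.Agent.Helper58.MV

open Pool.Agent.Helper23.MV
open Pool.Agent.Helper23.GK (StAp1)
open Pool.Agent.Helper48.BK (StSg)
open Finset

private theorem rpow_le_two_SGZ {n q : ℕ} (hn : 1 ≤ n) (hnq : n ≤ q) {l x : ℝ}
    (hl : l = Real.log (3 * q)) (hl1 : 1 ≤ l) (hx : x ≤ 1 / (2 * l)) : (n : ℝ) ^ x ≤ 2 := by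
  have hn0 : (0 : ℝ) < n := by exact_mod_cast hn
  have hn1 : (1 : ℝ) ≤ n := by exact_mod_cast hn
  have hlog0 : 0 ≤ Real.log n := Real.log_nonneg hn1
  have hlog : Real.log n ≤ l := by
    rw [hl]
    refine Real.log_le_log hn0 ?_
    have : (n : ℝ) ≤ q := by exact_mod_cast hnq
    linarith
  rw [Real.rpow_def_of_pos hn0]
  have h1 : Real.log n * x ≤ 1 / 2 := by
    have h2 : Real.log n * x ≤ Real.log n * (1 / (2 * l)) := mul_le_mul_of_nonneg_left hx hlog0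
    refine h2.trans ?_
    rw [mul_one_div, div_le_div_iff₀ (by linarith) (by norm_num)]
    linarith
  have h3 : Real.exp (1 / 2) ≤ 2 := by
    have h4 := Real.exp_one_lt_d9
    have h5 : Real.exp (1 / 2) * Real.exp (1 / 2) = Real.exp 1 := by
      rw [← Real.exp_add]; norm_num
    have h6 := Real.exp_pos (1 / 2)
    nlinarith
  exact (Real.exp_le_exp.2 h1).trans h3

private theorem bound_SGZ (h1 : StAp1) {q : ℕ} [NeZero q] (χ : DirichletCharacter ℂ q)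
    (hχ : χ ≠ 1) {l : ℝ} (hl : l = Real.log (3 * q)) (hl1 : 1 ≤ l) {s : ℂ}
    (hs : 1 - 1 / (2 * l) ≤ s.re) (hn : ‖s‖ ≤ 2) :
    ‖DirichletCharacter.LFunction χ s‖ ≤ 20 * l := by
  have hq1 : 1 ≤ q := Nat.one_le_iff_ne_zero.2 (NeZero.ne q)
  have hq0 : (0 : ℝ) < q := by exact_mod_cast hq1
  have hhalf : 1 / (2 * l) ≤ 1 / 2 := by
    rw [div_le_div_iff₀ (by linarith) (by norm_num)]
    linarith
  have h := h1 q χ s q hχ (by linarith) hq1
  have hx : 1 - s.re ≤ 1 / (2 * l) := by linarith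
  have hA : ∀ n ∈ Icc 1 q, (n : ℝ) ^ (-s.re) ≤ 2 * (n : ℝ)⁻¹ := by
    intro n hnm
    obtain ⟨ha, hb⟩ := mem_Icc.1 hnm
    have hn0 : (0 : ℝ) < n := by exact_mod_cast ha
    have e : (n : ℝ) ^ (-s.re) = (n : ℝ) ^ (1 - s.re) * (n : ℝ)⁻¹ := by
      rw [← Real.rpow_neg_one, ← Real.rpow_add hn0]
      congr 1
      ring
    rw [e]
    exact mul_le_mul_of_nonneg_right (rpow_le_two_SGZ ha hb hl hl1 hx) (inv_nonneg.2 hn0.le)
  have hS : ‖∑ n ∈ Icc 1 q, χ (n : ZMod q) * (n : ℂ) ^ (-s)‖ ≤ 2 * (1 + Real.log q) := by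
    refine (norm_sum_le _ _).trans ?_
    have hB : ∀ n ∈ Icc 1 q, ‖χ (n : ZMod q) * (n : ℂ) ^ (-s)‖ ≤ 2 * (n : ℝ)⁻¹ := by
      intro n hnm
      have hn0 : (0 : ℝ) < n := by exact_mod_cast (mem_Icc.1 hnm).1
      rw [norm_mul]
      have e3 : ‖(n : ℂ) ^ (-s)‖ = (n : ℝ) ^ (-s.re) := by
        rw [← Complex.ofReal_natCast, Complex.norm_cpow_eq_rpow_re_of_pos hn0, Complex.neg_re]
      rw [e3]
      have h2 := DirichletCharacter.norm_le_one χ (n : ZMod q)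
      have h3 := hA n hnm
      have h4 : 0 ≤ (n : ℝ) ^ (-s.re) := Real.rpow_nonneg hn0.le _
      nlinarith
    refine (sum_le_sum hB).trans ?_
    rw [← mul_sum]
    refine mul_le_mul_of_nonneg_left ?_ (by norm_num)
    have h5 := harmonic_le_one_add_log q
    rw [harmonic_eq_sum_Icc] at h5
    push_cast at h5
    exact h5
  have hT : 4 * q * ‖s‖ * (q : ℝ) ^ (-s.re) ≤ 16 := by
    have h6 := hA q (mem_Icc.2 ⟨hq1, le_rfl⟩)
    have h7 : 4 * q * ‖s‖ * (q : ℝ) ^ (-s.re) ≤ 4 * q * 2 * (2 * (q : ℝ)⁻¹) := by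
      refine mul_le_mul ?_ h6 (Real.rpow_nonneg hq0.le _) (by positivity)
      exact mul_le_mul_of_nonneg_left hn (by positivity)
    refine h7.trans (le_of_eq ?_)
    field_simp
    norm_num
  have hlog : Real.log q ≤ l - 1 := by
    rw [hl, Real.log_mul (by norm_num) hq0.ne']
    have h8 : 1 ≤ Real.log 3 := by
      rw [Real.le_log_iff_exp_le (by norm_num)]
      have := Real.exp_one_lt_d9
      linarith
    linarith
  have h9 := norm_sub_norm_le (DirichletCharacter.LFunction χ s)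
    (∑ n ∈ Icc 1 q, χ (n : ZMod q) * (n : ℂ) ^ (-s))
  linarith

private theorem low_SGZ (h1 : StAp1) {q : ℕ} [NeZero q] (χ : DirichletCharacter ℂ q)
    (hχ : χ ≠ 1) {l : ℝ} (hl : l = Real.log (3 * q)) (hl1 : 1 ≤ l) {δ : ℝ} (h0 : 0 < δ)
    (hδ : δ ≤ 1 / (4 * l)) (hz : DirichletCharacter.LFunction χ (1 - (δ : ℂ)) = 0) :
    ‖DirichletCharacter.LFunction χ 1‖ ≤ 80 * l ^ 2 * δ := by
  have hR : 0 < 1 / (4 * l) := by positivity
  have hR2 : 1 / (4 * l) + 1 / (4 * l) = 1 / (2 * l) := by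
    field_simp
    norm_num
  have hhalf : 1 / (2 * l) ≤ 1 / 2 := by
    rw [div_le_div_iff₀ (by linarith) (by norm_num)]
    linarith
  have hd : Differentiable ℂ (DirichletCharacter.LFunction χ) :=
    DirichletCharacter.differentiable_LFunction hχ
  have hD : ∀ z ∈ Metric.closedBall (1 : ℂ) δ,
      ‖deriv (DirichletCharacter.LFunction χ) z‖ ≤ 80 * l ^ 2 := by
    intro z hzm
    have hb : ∀ w ∈ Metric.sphere z (1 / (4 * l)),
        ‖DirichletCharacter.LFunction χ w‖ ≤ 20 * l := by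
      intro w hw
      have hw1 : ‖w - 1‖ ≤ 1 / (2 * l) := by
        have h2 : ‖w - z‖ = 1 / (4 * l) := by simpa [dist_eq_norm] using hw
        have h3 : ‖z - 1‖ ≤ δ := by simpa [dist_eq_norm] using hzm
        have h4 : ‖w - 1‖ ≤ ‖w - z‖ + ‖z - 1‖ := by
          have := norm_add_le (w - z) (z - 1)
          simpa using this
        linarith
      refine bound_SGZ h1 χ hχ hl hl1 ?_ ?_
      · have h5 := (Complex.abs_re_le_norm (w - 1)).trans hw1
        rw [Complex.sub_re, Complex.one_re, abs_le] at h5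
        linarith [h5.1]
      · have h6 : ‖w‖ ≤ ‖w - 1‖ + ‖(1 : ℂ)‖ := by
          have := norm_add_le (w - 1) 1
          simpa using this
        rw [norm_one] at h6
        linarith
    have h7 := Complex.norm_deriv_le_of_forall_mem_sphere_norm_le hR hd.diffContOnCl hb
    refine h7.trans (le_of_eq ?_)
    field_simp
    norm_num
  have h8 := Convex.norm_image_sub_le_of_norm_deriv_le (𝕜 := ℂ)
    (f := DirichletCharacter.LFunction χ) (s := Metric.closedBall (1 : ℂ) δ)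
    (x := 1 - (δ : ℂ)) (y := 1) (fun z _ => hd z) hD (convex_closedBall _ _)
    (by simp [abs_of_pos h0]) (by simp [h0.le])
  rw [hz, sub_zero] at h8
  have h9 : ‖(1 : ℂ) - (1 - (δ : ℂ))‖ = δ := by
    rw [sub_sub_cancel, Complex.norm_real, Real.norm_eq_abs, abs_of_pos h0]
  rwa [h9] at h8

theorem hSgz (h1 : StAp1) (h2 : StSg) : StSgz := by
  intro th0 hth
  obtain ⟨c1, hc1, hS⟩ := h2 (th0 / 2) (by linarith)
  refine ⟨min (c1 / 80) (1 / 4) * (th0 ^ 2 / 16 * (3 : ℝ) ^ (-(th0 / 2))), ?_, ?_⟩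
  · have : 0 < min (c1 / 80) (1 / 4) := lt_min (by linarith) (by norm_num)
    positivity
  intro e δ he h0 h1' hz
  have hq1 : 1 ≤ e.r := Nat.one_le_iff_ne_zero.2 e.hr
  have hq0 : (0 : ℝ) < e.r := by exact_mod_cast hq1
  have hq1' : (1 : ℝ) ≤ e.r := by exact_mod_cast hq1
  obtain ⟨l, hl⟩ : ∃ l : ℝ, l = Real.log (3 * e.r) := ⟨_, rfl⟩
  have hl1 : 1 ≤ l := by
    rw [hl, Real.le_log_iff_exp_le (by positivity)]
    have := Real.exp_one_lt_d9
    linarith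
  have hm : 0 < min (c1 / 80) (1 / 4) := lt_min (by linarith) (by norm_num)
  -- `l ^ 2 ≤ 16 / th0 ^ 2 * (3 q) ^ (th0 / 2)`
  have hll : l * (th0 / 4) ≤ (3 * (e.r : ℝ)) ^ (th0 / 4) := by
    rw [hl, mul_comm, ← Real.log_rpow (by positivity)]
    have h3 : 0 < (3 * (e.r : ℝ)) ^ (th0 / 4) := by positivity
    have := Real.log_le_sub_one_of_pos h3
    linarith
  have hl2 : l ^ 2 * (th0 ^ 2 / 16) ≤ (3 * (e.r : ℝ)) ^ (th0 / 2) := by
    have e1 : (3 * (e.r : ℝ)) ^ (th0 / 2) =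
        (3 * (e.r : ℝ)) ^ (th0 / 4) * (3 * (e.r : ℝ)) ^ (th0 / 4) := by
      rw [← Real.rpow_add (by positivity)]
      congr 1
      ring
    have h4 : 0 ≤ l * (th0 / 4) := by positivity
    rw [e1]
    calc l ^ 2 * (th0 ^ 2 / 16) = (l * (th0 / 4)) * (l * (th0 / 4)) := by ring
      _ ≤ _ := mul_le_mul hll hll h4 (by positivity)
  obtain ⟨K, hK⟩ : ∃ K : ℝ, K = th0 ^ 2 / 16 * (3 : ℝ) ^ (-(th0 / 2)) := ⟨_, rfl⟩
  have hK0 : 0 < K := by rw [hK]; positivity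
  -- `K q ^ (-th0/2) ≤ 1 / l ^ 2`
  have hKl : K * (e.r : ℝ) ^ (-(th0 / 2)) * l ^ 2 ≤ 1 := by
    have e2 : (3 : ℝ) ^ (-(th0 / 2)) * (e.r : ℝ) ^ (-(th0 / 2)) * (3 * (e.r : ℝ)) ^ (th0 / 2) =
        1 := by
      rw [← Real.mul_rpow (by norm_num) hq0.le, ← Real.rpow_add (by positivity)]
      simp
    have h5 : 0 ≤ (3 : ℝ) ^ (-(th0 / 2)) * (e.r : ℝ) ^ (-(th0 / 2)) := by positivity
    have h6 := mul_le_mul_of_nonneg_left hl2 h5
    rw [e2] at h6
    rw [hK]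
    calc _ = (3 : ℝ) ^ (-(th0 / 2)) * (e.r : ℝ) ^ (-(th0 / 2)) * (l ^ 2 * (th0 ^ 2 / 16)) := by
          ring
      _ ≤ 1 := h6
  have hqe : (e.r : ℝ) ^ (-th0) = (e.r : ℝ) ^ (-(th0 / 2)) * (e.r : ℝ) ^ (-(th0 / 2)) := by
    rw [← Real.rpow_add hq0]
    congr 1
    ring
  have hqp : 0 < (e.r : ℝ) ^ (-(th0 / 2)) := by positivity
  have hqle : (e.r : ℝ) ^ (-(th0 / 2)) ≤ 1 :=
    Real.rpow_le_one_of_one_le_of_nonpos hq1' (by linarith)
  rw [← hK, hqe]
  by_cases hδ : δ ≤ 1 / (4 * l)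
  · have h7 := low_SGZ h1 e.χ he.2 hl hl1 h0 hδ hz
    have h8 := (hS e.r e.χ e.prim he.2 he.1).trans h7
    have h9 : min (c1 / 80) (1 / 4) ≤ c1 / 80 := min_le_left _ _
    have hl0 : 0 < l ^ 2 := by positivity
    have h10 : c1 / 80 * (e.r : ℝ) ^ (-(th0 / 2)) ≤ l ^ 2 * δ := by linarith
    calc min (c1 / 80) (1 / 4) * K * ((e.r : ℝ) ^ (-(th0 / 2)) * (e.r : ℝ) ^ (-(th0 / 2)))
        = (min (c1 / 80) (1 / 4) * (e.r : ℝ) ^ (-(th0 / 2))) *
          (K * (e.r : ℝ) ^ (-(th0 / 2))) := by ring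
      _ ≤ (c1 / 80 * (e.r : ℝ) ^ (-(th0 / 2))) * (K * (e.r : ℝ) ^ (-(th0 / 2))) :=
          mul_le_mul_of_nonneg_right (mul_le_mul_of_nonneg_right h9 hqp.le) (by positivity)
      _ ≤ (l ^ 2 * δ) * (K * (e.r : ℝ) ^ (-(th0 / 2))) :=
          mul_le_mul_of_nonneg_right h10 (by positivity)
      _ = (K * (e.r : ℝ) ^ (-(th0 / 2)) * l ^ 2) * δ := by ring
      _ ≤ 1 * δ := mul_le_mul_of_nonneg_right hKl h0.le
      _ = δ := one_mul δ
  · rw [not_le] at hδ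
    have h9 : min (c1 / 80) (1 / 4) ≤ 1 / 4 := min_le_right _ _
    have h10 : K * (e.r : ℝ) ^ (-(th0 / 2)) ≤ 1 / l := by
      rw [le_div_iff₀ (by linarith)]
      refine le_trans (mul_le_mul_of_nonneg_left ?_ (by positivity)) hKl
      nlinarith
    calc min (c1 / 80) (1 / 4) * K * ((e.r : ℝ) ^ (-(th0 / 2)) * (e.r : ℝ) ^ (-(th0 / 2)))
        = (min (c1 / 80) (1 / 4) * (e.r : ℝ) ^ (-(th0 / 2))) *
          (K * (e.r : ℝ) ^ (-(th0 / 2))) := by ring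
      _ ≤ (1 / 4 * 1) * (1 / l) := by
          refine mul_le_mul ?_ h10 (by positivity) (by norm_num)
          exact mul_le_mul h9 hqle hqp.le (by norm_num)
      _ = 1 / (4 * l) := by
          field_simp
      _ ≤ δ := hδ.le

end Pool.Agent.Helper58.MV
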